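import Pool.Agent.Helper37.Canopy.CDefs
import Pool.Agent.Helper37.Canopy.Graph

/-! Module F, non-vacuity: a model of the canopy tree (by helper71). -/

namespace Pool.Agent.Helper37.Canopy

open MeasureTheory ProbabilityTheory unitInterval SimpleGraph

section F

/-- Parent map of the model of the canopy tree. -/
def mpar (d : ℕ) (v : ℕ × ℕ) : ℕ × ℕ := (v.1 + 1, v.2 / (d - 1))

/-- A model of the canopy tree. -/
def modelG (d : ℕ) : SimpleGraph (ℕ × ℕ) where
  Adj v w := mpar d v = w ∨ mpar d w = v
  symm := ⟨fun _ _ h => h.symm⟩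
  loopless := ⟨fun v h => by
    rcases h with h | h <;>
    · have := congrArg Prod.fst h
      simp [mpar] at this⟩

theorem mpar_iter (d : ℕ) (v : ℕ × ℕ) (n : ℕ) :
    ((mpar d)^[n] v) = (v.1 + n, v.2 / (d - 1) ^ n) := by
  induction n with
  | zero => simp
  | succ n ih =>
    rw [Function.iterate_succ_apply', ih, mpar]
    simp only [Prod.mk.injEq]
    refine ⟨by omega, ?_⟩
    rw [Nat.div_div_eq_div_mul, pow_succ]

theorem model_reach_iter (d : ℕ) (v : ℕ × ℕ) (n : ℕ) :
    (modelG d).Reachable v ((mpar d)^[n] v) := by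
  induction n with
  | zero => exact SimpleGraph.Reachable.refl _
  | succ n ih =>
    refine ih.trans (SimpleGraph.Adj.reachable ?_)
    rw [Function.iterate_succ_apply']
    exact Or.inl rfl

theorem model_connected {d : ℕ} (hd : 3 ≤ d) : (modelG d).Connected := by
  rw [SimpleGraph.connected_iff]
  refine ⟨?_, ⟨(0, 0)⟩⟩
  have key : ∀ v : ℕ × ℕ, ∀ N, v.1 + v.2 ≤ N → (modelG d).Reachable v (N, 0) := by
    intro v N hN
    have := model_reach_iter d v (N - v.1)
    rw [mpar_iter] at this
    have h1 : v.2 / (d - 1) ^ (N - v.1) = 0 := by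
      apply Nat.div_eq_of_lt
      have h2 : v.2 < 2 ^ v.2 := Nat.lt_two_pow_self
      have h3 : 2 ^ v.2 ≤ (d - 1) ^ v.2 := Nat.pow_le_pow_left (by omega) _
      have h4 : (d - 1) ^ v.2 ≤ (d - 1) ^ (N - v.1) := Nat.pow_le_pow_right (by omega) (by omega)
      omega
    rw [h1] at this
    have h2 : v.1 + (N - v.1) = N := by omega
    rw [h2] at this
    exact this
  intro v w
  exact (key v (v.1 + v.2 + w.1 + w.2) (by omega)).trans
    (key w (v.1 + v.2 + w.1 + w.2) (by omega)).symm

theorem model_acyclic (d : ℕ) : (modelG d).IsAcyclic := by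
  rw [SimpleGraph.isAcyclic_iff_forall_isBridge]
  have key : ∀ v : ℕ × ℕ, (modelG d).IsBridge s(v, mpar d v) := by
    intro v
    rw [SimpleGraph.isBridge_iff]
    intro hr
    have hdesc : ∀ x y, ((modelG d).deleteEdges {s(v, mpar d v)}).Adj x y →
        (∃ j, (mpar d)^[j] x = v) → ∃ j, (mpar d)^[j] y = v := by
      rintro x y hxy ⟨j, hj⟩
      rw [SimpleGraph.deleteEdges_adj] at hxy
      obtain ⟨h1, h2⟩ := hxy
      rcases h1 with h1 | h1
      · cases j with
        | zero =>
          exfalso
          apply h2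
          simp only [Function.iterate_zero, id_eq] at hj
          rw [← h1, hj]
          rfl
        | succ j =>
          refine ⟨j, ?_⟩
          rw [Function.iterate_succ_apply, h1] at hj
          exact hj
      · refine ⟨j + 1, ?_⟩
        rw [Function.iterate_succ_apply, h1, hj]
    have hdesc2 : ∃ j, (mpar d)^[j] (mpar d v) = v := by
      obtain ⟨w⟩ := hr
      have : ∀ (a b : ℕ × ℕ) (w : ((modelG d).deleteEdges {s(v, mpar d v)}).Walk a b),
          (∃ j, (mpar d)^[j] a = v) → ∃ j, (mpar d)^[j] b = v := by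
        intro a b w
        induction w with
        | nil => exact id
        | cons h _ ih => exact fun h' => ih (hdesc _ _ h h')
      exact this _ _ w ⟨0, rfl⟩
    obtain ⟨j, hj⟩ := hdesc2
    rw [mpar_iter] at hj
    have := congrArg Prod.fst hj
    simp only [mpar] at this
    omega
  intro e he
  induction e with
  | h x y =>
    rw [SimpleGraph.mem_edgeSet] at he
    rcases he with he | he
    · rw [← he]; exact key x
    · rw [Sym2.eq_swap, ← he]; exact key y

/-- The model is a canopy tree. -/
theorem model_isCanopyTree {d : ℕ} (hd : 3 ≤ d) : IsCanopyTree d (modelG d) Prod.fst := by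
  refine ⟨⟨model_connected hd, model_acyclic d⟩, ?_, ?_, ?_, ?_⟩
  · intro k
    have : Function.Injective (fun n : ℕ => (k, n)) := fun a b h => (Prod.mk.inj h).2
    refine Set.Infinite.mono ?_ (Set.infinite_range_of_injective this)
    rintro _ ⟨n, rfl⟩
    rfl
  · intro v
    refine ⟨mpar d v, ⟨Or.inl rfl, rfl⟩, ?_⟩
    rintro w ⟨h1, h2⟩
    rcases h1 with h1 | h1
    · exact h1.symm
    · have := congrArg Prod.fst h1
      simp only [mpar] at this
      omega
  · rintro ⟨k, n⟩ hk
    simp only at hk
    obtain ⟨k, rfl⟩ : ∃ k', k = k' + 1 := ⟨k - 1, by omega⟩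
    have hset : {w | (modelG d).Adj (k + 1, n) w ∧ w.1 + 1 = ((k + 1, n) : ℕ × ℕ).1} =
        (fun i : ℕ => ((k, (d - 1) * n + i) : ℕ × ℕ)) '' (Set.Iio (d - 1)) := by
      ext ⟨k', n'⟩
      simp only [Set.mem_ofPred_eq, Set.mem_image, Set.mem_Iio, Prod.mk.injEq]
      constructor
      · rintro ⟨h1, h2⟩
        have hk' : k' = k := by omega
        subst hk'
        rcases h1 with h1 | h1
        · have := congrArg Prod.fst h1
          simp only [mpar] at this
          omega
        · have h3 := congrArg Prod.snd h1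
          simp only [mpar] at h3
          refine ⟨n' % (d - 1), Nat.mod_lt _ (by omega), rfl, ?_⟩
          rw [← h3]
          exact Nat.div_add_mod n' (d - 1)
      · rintro ⟨i, hi, rfl, rfl⟩
        refine ⟨Or.inr ?_, rfl⟩
        simp only [mpar, Prod.mk.injEq, true_and]
        rw [Nat.mul_add_div (by omega), Nat.div_eq_of_lt hi, Nat.add_zero]
    rw [hset, Set.ncard_image_of_injective]
    · rw [Set.ncard_eq_toFinset_card']
      simp
    · intro a b h
      simp only [Prod.mk.injEq, true_and] at h
      omega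
  · rintro v w (h | h)
    · left; rw [← h]; rfl
    · right; rw [← h]; rfl

end F

end Pool.Agent.Helper37.Canopy
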