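import Pool.Agent.Helper37.Canopy.CDefs
import Pool.Agent.Helper37.Canopy.Core
import Pool.Agent.Helper37.Canopy.Graph

/-! Module R: reversal embedding of trees of words. -/

namespace Pool.Agent.Helper37.Canopy

open MeasureTheory ProbabilityTheory unitInterval SimpleGraph


section R

variable {D : Type} [AddCommGroup D] [Fintype D] [DecidableEq D] [Nontrivial D]

/-- `rev u k` maps the tree of depth `k` (ray `0^i`) into the tree of words, sending the ray
`0^k, 0^{k-1}, ..., 0, []` to the path `[], u.take 1, ..., u.take k`. -/
def rev (u : List D) : ℕ → List D → List D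
  | k, [] => u.take k
  | 0, a :: z => a :: z
  | k + 1, a :: z => if a = 0 then rev u k z else u.take (k + 1) ++ (u.getD (k + 1) 0 + a) :: z

omit [Fintype D] [Nontrivial D] in
theorem rev_nil (u : List D) (k : ℕ) : rev u k [] = u.take k := by
  cases k <;> rfl

omit [Fintype D] [Nontrivial D] in
theorem rev_zero_cons (u : List D) (k : ℕ) (z : List D) : rev u (k + 1) (0 :: z) = rev u k z := by
  simp [rev]

omit [Fintype D] [Nontrivial D] in
theorem rev_ne_cons (u : List D) (k : ℕ) {a : D} (ha : a ≠ 0) (z : List D) :
    rev u (k + 1) (a :: z) = u.take (k + 1) ++ (u.getD (k + 1) 0 + a) :: z := by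
  simp [rev, ha]

omit [Fintype D] [Nontrivial D] in
theorem rev_adj_aux {u : List D} {k : ℕ} (hu : k ≤ u.length) {z : List D} {c : D}
    (hz' : (z ++ [c]).length ≤ k) : (WT D).Adj (rev u k z) (rev u k (z ++ [c])) := by
  induction k generalizing z with
  | zero => simp at hz'
  | succ k ih =>
    cases z with
    | nil =>
      by_cases hc : c = 0
      · subst hc
        rw [List.nil_append, rev_zero_cons, rev_nil, rev_nil]
        refine Or.inr ⟨u[k], ?_⟩
        rw [List.take_succ_eq_append_getElem]
      · rw [List.nil_append, rev_ne_cons _ _ hc, rev_nil]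
        exact Or.inl ⟨_, rfl⟩
    | cons a t =>
      by_cases ha : a = 0
      · subst ha
        rw [List.cons_append, rev_zero_cons, rev_zero_cons]
        refine ih (by omega) ?_
        simp at hz' ⊢
        omega
      · rw [List.cons_append, rev_ne_cons _ _ ha, rev_ne_cons _ _ ha]
        refine Or.inl ⟨c, by simp⟩

theorem rev_adj {u : List D} {k : ℕ} (hu : k ≤ u.length) {z z' : List D} (hz : z.length ≤ k)
    (hz' : z'.length ≤ k) (h : (WT D).Adj z z') : (WT D).Adj (rev u k z) (rev u k z') := by
  rcases h with ⟨a, rfl⟩ | ⟨a, rfl⟩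
  · exact rev_adj_aux hu hz'
  · exact (rev_adj_aux hu hz).symm

omit [Fintype D] [Nontrivial D] in
theorem rev_not_prefix {u : List D} {k : ℕ} (hu : k < u.length) (z : List D)
    (hz : z.length ≤ k) : ¬ u.take (k + 1) <+: rev u k z := by
  induction k generalizing z with
  | zero =>
    have : z = [] := by simpa using hz
    subst this
    rw [rev_nil]
    intro h
    have := h.length_le
    rw [List.length_take, List.length_take] at this
    omega
  | succ k ih =>
    cases z with
    | nil =>
      rw [rev_nil]
      intro h
      have := h.length_le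
      simp at this
      omega
    | cons a t =>
      by_cases ha : a = 0
      · subst ha
        rw [rev_zero_cons]
        intro h
        refine ih (by omega) t (by simpa using hz) (List.IsPrefix.trans ?_ h)
        exact List.take_prefix_take_left (by omega)
      · rw [rev_ne_cons _ _ ha]
        intro h
        rw [List.take_succ_eq_append_getElem hu, List.prefix_append_right_inj,
          List.cons_prefix_cons] at h
        have h1 := h.1
        rw [List.getD_eq_getElem _ _ hu] at h1
        exact ha (by simpa using h1)

theorem rev_injOn {u : List D} {k : ℕ} (hu : k ≤ u.length) :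
    Set.InjOn (rev u k) {z | z.length ≤ k} := by
  induction k with
  | zero =>
    intro z hz z' hz' _
    have h1 : z = [] := by simpa using hz
    have h2 : z' = [] := by simpa using hz'
    rw [h1, h2]
  | succ k ih =>
    have key : ∀ (t : List D), t.length ≤ k → ∀ v : List D, rev u k t ≠ u.take (k + 1) ++ v := by
      intro t ht v h
      exact rev_not_prefix (by omega) t ht (h ▸ List.prefix_append _ _)
    intro z hz z' hz' h
    simp only [Set.mem_ofPred_eq] at hz hz'
    cases z with
    | nil =>
      cases z' with
      | nil => rfl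
      | cons a' t' =>
        exfalso
        simp only [List.length_cons] at hz'
        by_cases ha : a' = 0
        · subst ha
          rw [rev_zero_cons, rev_nil] at h
          exact key t' (by omega) [] (by simpa using h.symm)
        · rw [rev_ne_cons _ _ ha, rev_nil] at h
          simp at h
    | cons a t =>
      simp only [List.length_cons] at hz
      cases z' with
      | nil =>
        exfalso
        by_cases ha : a = 0
        · subst ha
          rw [rev_zero_cons, rev_nil] at h
          exact key t (by omega) [] (by simpa using h)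
        · rw [rev_ne_cons _ _ ha, rev_nil] at h
          simp at h
      | cons a' t' =>
        simp only [List.length_cons] at hz'
        by_cases ha : a = 0
        · subst ha
          rw [rev_zero_cons] at h
          by_cases ha' : a' = 0
          · subst ha'
            rw [rev_zero_cons] at h
            have := ih (by omega) (show t.length ≤ k by omega) (show t'.length ≤ k by omega) h
            rw [this]
          · rw [rev_ne_cons _ _ ha'] at h
            exact absurd h (key t (by omega) _)
        · rw [rev_ne_cons _ _ ha] at h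
          by_cases ha' : a' = 0
          · subst ha'
            rw [rev_zero_cons] at h
            exact absurd h.symm (key t' (by omega) _)
          · rw [rev_ne_cons _ _ ha'] at h
            simp at h
            rw [h.1, h.2]

theorem rev_length {u : List D} {k : ℕ} {z : List D} (hz : z.length ≤ k) :
    (rev u k z).length ≤ 2 * k := by
  induction k generalizing z with
  | zero =>
    have h1 : z = [] := by simpa using hz
    subst h1
    simp [rev_nil]
  | succ k ih =>
    cases z with
    | nil =>
      rw [rev_nil, List.length_take]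
      omega
    | cons a t =>
      simp only [List.length_cons] at hz
      by_cases ha : a = 0
      · subst ha
        rw [rev_zero_cons]
        have := ih (z := t) (by omega)
        omega
      · rw [rev_ne_cons _ _ ha]
        simp only [List.length_append, List.length_take, List.length_cons]
        omega

theorem rev_replicate (u : List D) (k : ℕ) : rev u k (List.replicate k 0) = [] := by
  induction k with
  | zero => simp [rev_nil]
  | succ k ih => rw [List.replicate_succ, rev_zero_cons, ih]

omit [Fintype D] [Nontrivial D] in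
theorem rev_cases (u : List D) {k : ℕ} {z : List D} (hz : z.length ≤ k) :
    (∃ i ≤ k, rev u k z = u.take i) ∨
      ∃ i a t, 1 ≤ i ∧ i ≤ k ∧ a ≠ 0 ∧ t.length + 1 ≤ i ∧
        rev u k z = u.take i ++ (u.getD i 0 + a) :: t := by
  induction k generalizing z with
  | zero =>
    have h1 : z = [] := by simpa using hz
    subst h1
    exact Or.inl ⟨0, le_rfl, rev_nil _ _⟩
  | succ k ih =>
    cases z with
    | nil => exact Or.inl ⟨k + 1, le_rfl, rev_nil _ _⟩
    | cons a t =>
      simp only [List.length_cons] at hz
      by_cases ha : a = 0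
      · subst ha
        rw [rev_zero_cons]
        rcases ih (z := t) (by omega) with ⟨i, hi, h⟩ | ⟨i, b, t', h1, h2, h3, h4, h5⟩
        · exact Or.inl ⟨i, by omega, h⟩
        · exact Or.inr ⟨i, b, t', h1, by omega, h3, h4, h5⟩
      · exact Or.inr ⟨k + 1, a, t, by omega, le_rfl, ha, hz, rev_ne_cons _ _ ha _⟩

theorem rev_mem_out {s K : ℕ} (hs : 1 ≤ s) (hK : 2 * s ≤ K) {y : List D} (hy : y.length = s)
    {z : List D} (hz : z.length ≤ 2 * s - 1) :
    rev (y ++ List.replicate s 0) (2 * s - 1) z ∈ Out D s (K + 2 * s) := by
  refine ⟨?_, ?_⟩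
  · have := rev_length (u := y ++ List.replicate s 0) hz
    omega
  · intro y' hy' hpre
    rcases rev_cases (y ++ List.replicate s 0) hz with ⟨i, hi, h⟩ | ⟨i, a, t, h1, h2, h3, h4, h5⟩
    · rw [h] at hpre
      have := hpre.length_le
      simp at this
      omega
    · rw [h5] at hpre
      have hl := hpre.length_le
      simp only [List.length_append, List.length_replicate, List.length_take,
        List.length_cons] at hl
      have hi : s ≤ i := by omega
      have hget : (y' ++ List.replicate s (0 : D))[i]? =
          ((y ++ List.replicate s (0 : D)).take i ++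
            ((y ++ List.replicate s (0 : D)).getD i 0 + a) :: t)[i]? := by
        rw [List.prefix_iff_getElem?] at hpre
        have := hpre i (by simp; omega)
        rw [this, List.getElem?_eq_getElem]
      have hu : (y ++ List.replicate s (0 : D)).getD i 0 = 0 := by
        rw [List.getD_append_right _ _ _ _ (by omega)]
        simp
      rw [hu, List.getElem?_append_right (by omega), List.getElem?_append_right (by simp)] at hget
      simp only [List.length_take, List.length_append, List.length_replicate] at hget
      rw [List.getElem?_replicate_of_lt (by omega), hy] at hget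
      have : i - min i (s + s) = 0 := by omega
      rw [this] at hget
      simp at hget
      exact h3 hget.symm

theorem rootConn_base {p : I} {c : ℝ} (hL : LeafConn D p c) (L : ℕ) :
    ∃ K M : ℕ, RootConn D p K M L c := by
  choose k M hkM using hL
  refine ⟨2 * ∑ m ∈ Finset.range (L + 1), k m, ∑ m ∈ Finset.range (L + 1), M m, ?_⟩
  intro m hm
  have hk : k m ≤ ∑ m ∈ Finset.range (L + 1), k m :=
    Finset.single_le_sum (f := k) (fun _ _ => Nat.zero_le _) (Finset.mem_range.2 (by omega))
  have hM : M m ≤ ∑ m ∈ Finset.range (L + 1), M m :=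
    Finset.single_le_sum (f := M) (fun _ _ => Nat.zero_le _) (Finset.mem_range.2 (by omega))
  generalize ∑ m ∈ Finset.range (L + 1), k m = K' at *
  generalize ∑ m ∈ Finset.range (L + 1), M m = M' at *
  refine le_trans (hkM m) ?_
  set f : List D × ℤ → List D × ℤ := fun q => (rev (List.replicate (k m) 0) (k m) q.1, q.2) with hf
  have h1 : f (List.replicate (k m) 0, 0) = ([], 0) := by simp [hf, rev_replicate]
  have h2 : f (List.replicate (k m) 0, (m : ℤ)) = ([], (m : ℤ)) := by simp [hf, rev_replicate]
  rw [← h1, ← h2]
  have hlen : k m ≤ (List.replicate (k m) (0 : D)).length := by simp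
  refine Pr_conn_le (G' := BG D (k m) (-M m) (M m)) f (R' := box D (k m) (-M m) (M m)) ?_ ?_ ?_ _ _
  · rintro ⟨z, t⟩ hz ⟨z', t'⟩ hz' h
    simp only [hf, Prod.mk.injEq] at h
    have := rev_injOn hlen (show z.length ≤ k m from hz.1) (show z'.length ≤ k m from hz'.1) h.1
    rw [this, h.2]
  · intro x y h
    exact h.2.1
  · rintro ⟨z, t⟩ ⟨z', t'⟩ ⟨hadj, hz, hz'⟩
    have e1 : z.length ≤ k m := hz.1
    have e2 : -(M m : ℤ) ≤ t := hz.2.1
    have e3 : t ≤ M m := hz.2.2
    have e4 : z'.length ≤ k m := hz'.1
    have e5 : -(M m : ℤ) ≤ t' := hz'.2.1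
    have e6 : t' ≤ M m := hz'.2.2
    refine ⟨?_, ⟨?_, ?_, ?_⟩, ⟨?_, ?_, ?_⟩⟩
    · rcases hadj with ⟨h, h'⟩ | ⟨h, h'⟩
      · exact Or.inl ⟨rev_adj hlen e1 e4 h, h'⟩
      · refine Or.inr ⟨h, ?_⟩
        simp only at h'
        simp only [hf, h']
    · have := rev_length (u := List.replicate (k m) (0 : D)) e1
      simp only [hf]
      omega
    · simp only [hf]; omega
    · simp only [hf]; omega
    · have := rev_length (u := List.replicate (k m) (0 : D)) e4
      simp only [hf]
      omega
    · simp only [hf]; omega
    · simp only [hf]; omega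

/-- The root column point `([], x)` is connected to the point of height `h` above
`u = y ++ 0^s` by a path which stays outside of all the subtrees below points `y' ++ 0^s`
until its last edge. -/
def downEv (D : Type) [Zero D] (s K H : ℕ) (y : List D) (x : ℤ) :
    Set (Cfg (Sym2 (List D × ℤ))) :=
  {ω | ∃ h : ℤ, |h - x| ≤ H ∧
    (opn (res (WZ D) {q | q.1 ∈ Out D s (K + 2 * s) ∧ |q.2 - x| ≤ H}) ω).Reachable
      ([], x) ((y ++ List.replicate s 0).dropLast, h) ∧
    ω s(((y ++ List.replicate s 0).dropLast, h), (y ++ List.replicate s 0, h)) = true}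

/-- Auxiliary: arms that use the first digit `0` part only until the last step. -/
def armAux (D : Type) [Zero D] (k H : ℕ) : Set (Cfg (Sym2 (List D × ℤ))) :=
  {ω | ∃ h : ℤ, |h| ≤ H ∧
    (opn (res (BG D k (-H) H) {q | ∃ z', q.1 = 0 :: z'}) ω).Reachable
      (List.replicate k 0, 0) ([0], h) ∧
    ω s(([0], h), ([], h)) = true}

theorem le_Pr_downEv {p : I} {θ : ℝ} {s K H : ℕ} (hs : 1 ≤ s) (hK : 2 * s ≤ K)
    (h : θ ≤ Pr p {ω : Cfg (Sym2 (List D × ℤ)) | ∃ h : ℤ,
      (opn (BG D (2 * s) (-H) H) ω).Reachable (List.replicate (2 * s) 0, 0) ([], h)})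
    (y : List D) (hy : y.length = s) (x : ℤ) : θ ≤ Pr p (downEv D s K H y x) := by
  set u := y ++ List.replicate s (0 : D) with hu
  have hul : u.length = 2 * s := by simp [hu]; omega
  -- step 1: arm event inside armAux
  have hsub : {ω : Cfg (Sym2 (List D × ℤ)) | ∃ h : ℤ,
      (opn (BG D (2 * s) (-H) H) ω).Reachable (List.replicate (2 * s) 0, 0) ([], h)} ⊆
      armAux D (2 * s) H := by
    rintro ω ⟨t, ht⟩
    have hmem : (List.replicate (2 * s) (0 : D), (0 : ℤ)) ∈
        {q : List D × ℤ | ∃ z', q.1 = 0 :: z'} := by
      refine ⟨List.replicate (2 * s - 1) 0, ?_⟩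
      obtain ⟨n, hn⟩ : ∃ n, 2 * s = n + 1 := ⟨2 * s - 1, by omega⟩
      simp [hn, List.replicate_succ]
    rcases reach_or_exit ht hmem with h1 | ⟨q, hq, q', hq', h1, h2⟩
    · -- impossible: the end point is not in the region
      exfalso
      obtain ⟨w⟩ := h1
      have hne : (List.replicate (2 * s) (0 : D), (0 : ℤ)) ≠ ([], t) := by
        intro h
        have := congrArg (fun q : List D × ℤ => q.1.length) h
        simp at this
        omega
      have := w.adj_penultimate (SimpleGraph.Walk.not_nil_of_ne hne)
      obtain ⟨z', hz'⟩ := this.2.2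
      simp at hz'
    · obtain ⟨z, t1⟩ := q
      obtain ⟨z', t'⟩ := q'
      obtain ⟨⟨hadj, hb, hb'⟩, hopen⟩ := h2
      obtain ⟨v, hv⟩ := hq
      simp only at hv
      subst hv
      rcases hadj with ⟨hadj, htt⟩ | ⟨hadj, hzz⟩
      · simp only at hadj htt
        subst htt
        rcases hadj with ⟨a, ha⟩ | ⟨a, ha⟩
        · exfalso
          apply hq'
          exact ⟨v ++ [a], by simp [ha]⟩
        · -- parent: must be v = []
          cases z' with
          | nil =>
            simp only [List.nil_append, List.cons.injEq] at ha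
            obtain ⟨_, hv⟩ := ha
            subst hv
            refine ⟨t1, abs_le.2 ⟨hb.2.1, hb.2.2⟩, ?_, hopen⟩
            refine h1.mono ?_
            intro a b hab
            exact ⟨⟨hab.1.1, hab.2.1, hab.2.2⟩, hab.1.2⟩
          | cons c t'' =>
            exfalso
            apply hq'
            simp only [List.cons_append, List.cons.injEq] at ha
            exact ⟨t'', by simp [ha.1]⟩
      · exfalso
        apply hq'
        exact ⟨v, by simpa using hzz.symm⟩
  -- step 2: transfer
  set f : List D × ℤ → List D × ℤ := fun q => (rev u (2 * s) q.1, q.2 + x) with hf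
  have hmeas : MeasurableSet (armAux D (2 * s) H) := by
    have : armAux D (2 * s) H = ⋃ h : ℤ, ({ω | |h| ≤ (H : ℤ)} ∩
        (conn (res (BG D (2 * s) (-H) H) {q | ∃ z', q.1 = 0 :: z'})
          (List.replicate (2 * s) 0, 0) ([0], h) ∩ {ω | ω s(([0], h), ([], h)) = true})) := by
      ext ω
      simp only [armAux, conn, Set.mem_ofPred_eq, Set.mem_iUnion, Set.mem_inter_iff]
    rw [this]
    refine MeasurableSet.iUnion fun h => ?_
    refine MeasurableSet.inter (MeasurableSet.const _) (MeasurableSet.inter
      (measurableSet_conn _ _ _) ?_)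
    exact measurableSet_preimage
      (measurable_pi_apply (X := fun _ : Sym2 (List D × ℤ) => Bool) s(([0], h), ([], h)))
      (measurableSet_singleton true)
  have hdep : Dep (BG D (2 * s) (-H) H).edgeSet (armAux D (2 * s) H) := by
    rintro ω ω' hω ⟨t, ht, hr, ho⟩
    refine ⟨t, ht, ?_, ?_⟩
    · refine conn_dep _ _ _ ω ω' ?_ hr
      intro e he
      apply hω
      induction e with
      | h a b =>
        rw [SimpleGraph.mem_edgeSet] at he ⊢
        exact he.1
    · rw [← hω _ ?_]
      · exact ho
      · rw [SimpleGraph.mem_edgeSet]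
        rw [abs_le] at ht
        refine ⟨Or.inl ⟨Or.inr ⟨0, rfl⟩, rfl⟩, ⟨?_, ht.1, ht.2⟩, ⟨?_, ht.1, ht.2⟩⟩
        · simp; omega
        · simp
  have hinj : Set.InjOn f (box D (2 * s) (-H) H) := by
    rintro ⟨z, t⟩ hz ⟨z', t'⟩ hz' h
    simp only [hf, Prod.mk.injEq] at h
    have := rev_injOn (by omega) (show z.length ≤ 2 * s from hz.1)
      (show z'.length ≤ 2 * s from hz'.1) h.1
    rw [this]
    have : t = t' := by omega
    rw [this]
  refine le_trans h ?_
  refine le_trans (measureReal_mono hsub) ?_
  show Pr p (armAux D (2 * s) H) ≤ _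
  rw [← Pr_pull_graph (G' := BG D (2 * s) (-H) H) f hinj (fun x y h => h.2.1) hmeas hdep]
  refine measureReal_mono ?_
  rintro ω ⟨t, ht, hr, ho⟩
  refine ⟨t + x, ?_, ?_, ?_⟩
  · simpa using ht
  · have := reach_map (G := res (WZ D) {q | q.1 ∈ Out D s (K + 2 * s) ∧ |q.2 - x| ≤ H}) f ?_ hr
    · convert this using 1
      · simp [hf, rev_replicate]
      · simp only [hf, Prod.mk.injEq, and_true]
        obtain ⟨n, hn⟩ : ∃ n, 2 * s = n + 1 := ⟨2 * s - 1, by omega⟩
        rw [hn, rev_zero_cons, rev_nil, List.dropLast_eq_take, hul, hn]
        rfl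
    · rintro ⟨z, t1⟩ ⟨z', t1'⟩ ⟨⟨hadj, hb, hb'⟩, ⟨v, hv⟩, ⟨v', hv'⟩⟩
      have e1 : z.length ≤ 2 * s := hb.1
      have e4 : z'.length ≤ 2 * s := hb'.1
      simp only at hv hv'
      have key : ∀ v : List D, (0 :: v).length ≤ 2 * s →
          rev u (2 * s) (0 :: v) ∈ Out D s (K + 2 * s) := by
        intro v hv
        obtain ⟨n, hn⟩ : ∃ n, 2 * s = n + 1 := ⟨2 * s - 1, by omega⟩
        rw [hn, rev_zero_cons]
        have : n = 2 * s - 1 := by omega
        subst this
        rw [hu]
        have h2 := rev_mem_out (K := K) hs hK hy (z := v) (by simp at hv; omega)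
        convert h2 using 2
        omega
      refine ⟨?_, ⟨?_, ?_⟩, ⟨?_, ?_⟩⟩
      · rcases hadj with ⟨h1, h2⟩ | ⟨h1, h2⟩
        · refine Or.inl ⟨rev_adj (by omega) e1 e4 h1, ?_⟩
          simp only at h2
          simp only [hf, h2]
        · refine Or.inr ⟨?_, ?_⟩
          · simp only [hf]
            rw [zadj] at h1 ⊢
            simp only at h1
            omega
          · simp only at h2
            simp only [hf, h2]
      · subst hv
        exact key v e1
      · simp only [hf, add_sub_cancel_right]
        exact abs_le.2 ⟨hb.2.1, hb.2.2⟩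
      · subst hv'
        exact key v' e4
      · simp only [hf, add_sub_cancel_right]
        exact abs_le.2 ⟨hb'.2.1, hb'.2.2⟩
  · simp only [Sym2.map_mk] at ho
    have f0 : f ([0], t) = (u.dropLast, t + x) := by
      obtain ⟨n, hn⟩ : ∃ n, 2 * s = n + 1 := ⟨2 * s - 1, by omega⟩
      simp only [hf]
      rw [hn, rev_zero_cons, rev_nil, List.dropLast_eq_take]
      have : n = u.length - 1 := by omega
      rw [this]
    have f1 : f ([], t) = (u, t + x) := by
      simp only [hf]
      rw [rev_nil, List.take_of_length_le (by omega)]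
    rw [f0, f1] at ho
    exact ho

end R

end Pool.Agent.Helper37.Canopy
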